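import Mathlib
import Pool.Agent.GE70.KSp

/-!
The Graev free topological group of a product of at most `ℵ₁` first countable Tychonoff spaces
is always an s-group. Such a product is not sequential if uncountably many factors have two
points, and not even a k-space if uncountably many factors are not countably compact
(for instance the powers of the integers or of the real line with exponent `ω₁`).
-/

set_option autoImplicit false

open Filter Topology Set

namespace Pool.Agent.Results.MP_34ba9c_gt.FirstCountableProducts

open Pool.Agent.GE70

/-- A product of Hausdorff spaces is not sequential, if uncountably many factors have two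
points. -/
lemma not_sequential {I : Type} {X : I → Type} [∀ i, TopologicalSpace (X i)]
    [∀ i, T2Space (X i)] (a : ∀ i, X i) (h : ¬ {i | Nontrivial (X i)}.Countable) :
    ¬ SequentialSpace (∀ i, X i) := by
  classical
  intro hseq
  set C : Set (∀ i, X i) := {b | {i | b i ≠ a i}.Countable} with hC
  have hsc : IsSeqClosed C := by
    intro u p hu hup
    rw [tendsto_pi_nhds] at hup
    refine (countable_iUnion fun n => hu n).mono (s₂ := ⋃ n, {i | u n i ≠ a i}) fun i hi => ?_
    by_contra hno
    simp only [mem_iUnion, mem_ofPred_eq, not_exists, not_not] at hno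
    apply hi
    have h1 := hup i
    simp only [hno] at h1
    exact (tendsto_nhds_unique h1 tendsto_const_nhds)
  have hcl : IsClosed C := hsc.isClosed
  have hb : ∀ i, ∃ z : X i, Nontrivial (X i) → z ≠ a i := by
    intro i
    by_cases hi : Nontrivial (X i)
    · obtain ⟨z, hz⟩ := exists_ne (a i)
      exact ⟨z, fun _ => hz⟩
    · exact ⟨a i, fun h => absurd h hi⟩
  choose b hb using hb
  have hbC : b ∈ C := by
    rw [← hcl.closure_eq, mem_closure_iff_nhds]
    intro t ht
    rw [nhds_pi, Filter.mem_pi] at ht
    obtain ⟨J, hJ, s, hs, hst⟩ := ht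
    refine ⟨fun i => if i ∈ J then b i else a i, hst ?_, ?_⟩
    · intro i hi
      simp only [hi, if_true]
      exact mem_of_mem_nhds (hs i)
    · refine hJ.countable.mono fun i hi => ?_
      by_contra hno
      simp [hno] at hi
  exact h (Set.Countable.mono (fun i hi => hb i hi) hbC)

theorem result (I : Type) (hI : Cardinal.mk I ≤ Cardinal.aleph 1)
    (X : I → Type) [∀ i, TopologicalSpace (X i)] [∀ i, T35Space (X i)]
    [∀ i, FirstCountableTopology (X i)] (e : ∀ i, X i) :
    T35Space (∀ i, X i) ∧
    (∃ (F : Type) (_ : Group F) (_ : TopologicalSpace F) (_ : IsTopologicalGroup F)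
      (ι : (∀ i, X i) → F), IsGraev e F ι) ∧
    (∀ (F : Type) [Group F] [TopologicalSpace F] [IsTopologicalGroup F]
      (ι : (∀ i, X i) → F), IsGraev e F ι → IsSGroup F ∧ IsSGroupSeq F) ∧
    (¬ {i | Nontrivial (X i)}.Countable → ¬ SequentialSpace (∀ i, X i)) ∧
    (¬ {i | HasClosedDiscrete (X i)}.Countable → ¬ IsKSpace (∀ i, X i)) := by
  refine ⟨inferInstance, exists_isGraev e, ?_, fun h => not_sequential e h,
    fun h => not_kSpace e _ h fun i hi => hi⟩
  intro F _ _ _ ι h
  obtain ⟨_, hI'⟩ := exists_order I hI
  refine h.isSGroup ?_
  intro H _ _ _ f hf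
  letI : UniformSpace H := IsTopologicalGroup.rightUniformSpace H
  exact seqContinuous_completelyRegular hI' f hf

end Pool.Agent.Results.MP_34ba9c_gt.FirstCountableProducts
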